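import Pool.Agent.helper70.GB.SpecN
import Pool.Agent.helper65.GB.Elem

/-!
# Project gb, module TH: induction on the number of functionals (note, N1)

`helper92`, problem MP_7933bc_al.
-/

open Matrix Polynomial

namespace GB

universe u

/-- unimodular rows over a local ring. -/
theorem TH_local {R : Type*} [CommRing R] [IsLocalRing R] {n : ℕ} (hn : 2 ≤ n) (v : Fin n → R)
    (hv : Um v) : Comp v := by
  obtain ⟨i, hi⟩ : ∃ i, IsUnit (v i) := by
    by_contra hcon
    push Not at hcon
    obtain ⟨w, hw⟩ := hv
    have h1 : (1 : R) ∈ IsLocalRing.maximalIdeal R := by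
      rw [← hw, dotProduct]
      exact Ideal.sum_mem _ fun i _ => Ideal.mul_mem_right _ _
        ((IsLocalRing.mem_maximalIdeal _).2 (hcon i))
    exact (Ideal.ne_top_iff_one _).1 (IsLocalRing.maximalIdeal.isMaximal R).ne_top h1
  have hnt : Nontrivial (Fin n) := Fin.nontrivial_iff_two_le.2 hn
  obtain ⟨l, hl⟩ := exists_ne i
  exact (comp_iff_gEq_single i).2 (EEq_single_of_isUnit i i l hl.symm v hi).gEq

/-- completability is invariant under ring isomorphisms. -/
theorem TH_equiv {A B : Type*} [CommRing A] [CommRing B] (e : A ≃+* B) {n : ℕ}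
    (h : AllComp n B) : AllComp n A := by
  intro v hv
  have h1 := h (fun i => e (v i)) (hv.map (e : A →+* B))
  have h2 := h1.map (e.symm : B →+* A)
  have h3 : (fun i => (e.symm : B →+* A) (e (v i))) = v := by
    funext i
    exact e.symm_apply_apply (v i)
  rwa [h3] at h2

/-- a complement of the common kernel. -/
theorem TH_complement {L : Type u} [AddCommGroup L] {s : ℕ} (a : Fin s → L →+ ℤ) :
    ∃ L' : AddSubgroup L, (∀ m : L, ∃ m' ∈ L', ∀ j, a j m = a j m') ∧
      ∀ m ∈ L', (∀ j, a j m = 0) → m = 0 := by
  let f : L →ₗ[ℤ] (Fin s → ℤ) :=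
    { toFun := fun m j => a j m
      map_add' := fun x y => by ext j; simp
      map_smul' := fun k x => by ext j; simp }
  have hfree : Module.Free ℤ (LinearMap.range f) := inferInstance
  obtain ⟨σ, hσ⟩ := Module.projective_lifting_property f.rangeRestrict LinearMap.id
    f.surjective_rangeRestrict
  have hσ' : ∀ y, f.rangeRestrict (σ y) = y := fun y => congrArg (fun F => F y) hσ
  refine ⟨(LinearMap.range σ).toAddSubgroup, ?_, ?_⟩
  · intro m
    refine ⟨σ (f.rangeRestrict m), ⟨_, rfl⟩, fun j => ?_⟩
    have h1 := congrArg Subtype.val (hσ' (f.rangeRestrict m))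
    exact (congrFun h1 j).symm
  · rintro _ ⟨y, rfl⟩ h
    have h1 : y = 0 := by
      rw [← hσ' y]
      apply Subtype.ext
      funext j
      exact h j
    rw [h1, map_zero]

theorem TH (hCA : CA_stmt.{u}) (hCB : CB_stmt.{u}) : TH_stmt.{u} := by
  intro hRAO n hn s
  induction s with
  | zero =>
    intro R L _ _ a hR hinj
    have hsub : Subsingleton (Nmon a) := by
      refine ⟨fun x y => Subtype.ext ?_⟩
      rw [hinj x.1 fun i => i.elim0, hinj y.1 fun i => i.elim0]
    have hloc := hR.loc
    exact TH_equiv (AddMonoidAlgebra.uniqueRingEquiv (Nmon a)) fun v hv => TH_local (by omega) v hv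
  | succ s ih =>
    intro R L _ _ a hR hinj
    by_cases hA : ∀ m : L, (∀ j : Fin s, a ((Fin.last s).succAbove j) m = 0) → m = 0
    · refine hCA n hn R L s a (Fin.last s) (ih R L _ hR hA) (ih R _ _ hR ?_)
      intro m hm
      apply Subtype.ext
      apply hinj
      intro i
      induction i using Fin.lastCases with
      | last => exact m.2
      | cast j =>
        have := hm j
        rw [Fin.succAbove_last] at this
        exact this
    · push Not at hA
      obtain ⟨m₀, hm₀, hm₀'⟩ := hA
      simp only [Fin.succAbove_last] at hm₀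
      -- the common kernel of the other functionals
      let K : AddSubgroup L :=
        { carrier := {m | ∀ j : Fin s, a j.castSucc m = 0}
          zero_mem' := fun j => map_zero _
          add_mem' := fun {x y} hx hy j => by rw [map_add, hx j, hy j, add_zero]
          neg_mem' := fun {x} hx j => by rw [map_neg, hx j, neg_zero] }
      have hKinj : ∀ m ∈ K, a (Fin.last s) m = 0 → m = 0 := by
        intro m hm h0
        apply hinj
        intro i
        induction i using Fin.lastCases with
        | last => exact h0
        | cast j => exact hm j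
      obtain ⟨g, hg⟩ := Int.subgroup_cyclic (K.map (a (Fin.last s)))
      obtain ⟨z, hzK, hz⟩ : ∃ z ∈ K, a (Fin.last s) z = g := by
        have : g ∈ K.map (a (Fin.last s)) := by
          rw [hg]
          exact AddSubgroup.subset_closure rfl
        exact this
      have hspan : ∀ m ∈ K, ∃ k : ℤ, m = k • z := by
        intro m hm
        have h1 : a (Fin.last s) m ∈ K.map (a (Fin.last s)) := ⟨m, hm, rfl⟩
        rw [hg, AddSubgroup.mem_closure_singleton] at h1
        obtain ⟨k, hk⟩ := h1
        refine ⟨k, ?_⟩
        have h2 : m - k • z = 0 := by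
          apply hKinj _ (K.sub_mem hm (K.zsmul_mem hzK k))
          rw [map_sub, map_zsmul, hz, hk, sub_self]
        exact sub_eq_zero.1 h2
      have hg0 : g ≠ 0 := by
        intro h0
        obtain ⟨k, hk⟩ := hspan m₀ hm₀
        have hz0 : z = 0 := hKinj z hzK (by rw [hz, h0])
        exact hm₀' (by rw [hk, hz0, smul_zero])
      -- make the value positive
      obtain ⟨z', hz'K, hz'pos, hspan'⟩ : ∃ z' ∈ K, 0 < a (Fin.last s) z' ∧
          ∀ m ∈ K, ∃ k : ℤ, m = k • z' := by
        rcases lt_or_gt_of_ne hg0 with h | h
        · refine ⟨-z, K.neg_mem hzK, by rw [map_neg, hz]; omega, fun m hm => ?_⟩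
          obtain ⟨k, hk⟩ := hspan m hm
          exact ⟨-k, by rw [hk, neg_smul_neg]⟩
        · exact ⟨z, hzK, by rw [hz]; exact h, hspan⟩
      obtain ⟨L', hL1, hL2⟩ := TH_complement (fun j : Fin s => a j.castSucc)
      refine hCB n hn hRAO R L s a z' L' hR hz'pos hz'K ?_ ?_ hL2 (ih R _ _ hR ?_) ?_
      · intro m
        obtain ⟨m', hm', h⟩ := hL1 m
        obtain ⟨k, hk⟩ := hspan' (m - m') (fun j => by rw [map_sub, h j, sub_self])
        exact ⟨k, m', hm', by rw [← hk, sub_add_cancel]⟩
      · intro k hk
        have h0 : k • z' = 0 := hL2 _ hk fun j => by rw [map_zsmul, hz'K j, smul_zero]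
        have h1 := congrArg (a (Fin.last s)) h0
        rw [map_zsmul, map_zero, smul_eq_mul] at h1
        exact (mul_eq_zero.1 h1).resolve_right hz'pos.ne'
      · intro m hm
        apply Subtype.ext
        apply hinj
        intro i
        induction i using Fin.lastCases with
        | last => exact m.2
        | cast j => exact hm j
      · intro R' _ hR'
        exact ih R' _ _ hR' fun m hm => Subtype.ext (hL2 m.1 m.2 hm)

end GB
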