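import Pool.Agent.helper70.GB.SpecF
import Pool.Agent.helper65.GB.Elem

/-!
# Project gb, module RW: assembly of Rao's theorem (note, R.5)

`helper92`, problem MP_7933bc_al.
-/

open Matrix Polynomial

namespace GB

universe u

section maps

variable {A B : Type*} [CommRing A] [CommRing B] {ι κ : Type*} [Fintype ι] [DecidableEq ι]
  [Fintype κ] [DecidableEq κ]

omit [Fintype ι] [DecidableEq ι] [Fintype κ] [DecidableEq κ] in
theorem RW_dsum_map (f : A →+* B) (M : Matrix ι ι A) (N : Matrix κ κ A) :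
    (dsum M N).map f = dsum (M.map f) (N.map f) := by
  unfold dsum
  rw [Matrix.fromBlocks_map]
  congr 1 <;> ext i j <;> simp

theorem RW_Hyp_map (f : A →+* B) : (Hyp κ A).map f = Hyp κ B := by
  unfold Hyp
  rw [Matrix.fromBlocks_map]
  congr 1
  · ext i j; simp
  · ext i j
    simp only [Matrix.map_apply, Matrix.one_apply]
    split_ifs <;> simp
  · ext i j
    simp only [Matrix.map_apply, Matrix.neg_apply, Matrix.one_apply]
    split_ifs <;> simp
  · ext i j; simp

theorem RW_V_map (f : A →+* B) (w w' : Fin 3 → A) :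
    (V w w').map f = V (fun i => f (w i)) (fun i => f (w' i)) := by
  unfold V
  ext i j
  fin_cases i <;> fin_cases j <;> simp

theorem RW_e0_map (f : A →+* B) : (fun i => f (e0 A i)) = e0 B := by
  funext i
  fin_cases i <;> simp [e0]

theorem RW_e0 : e0 A = Pi.single 0 1 := by
  funext i
  fin_cases i <;> simp [e0]

theorem RW_map_pow (f : A →+* B) (M : Matrix ι ι A) (k : ℕ) : (M ^ k).map f = (M.map f) ^ k :=
  map_pow f.mapMatrix M k

theorem RW_det_map (f : A →+* B) (M : Matrix ι ι A) : (M.map f).det = f M.det := by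
  rw [RingHom.map_det]; rfl

end maps

/-- unimodular rows over a local ring. -/
theorem RW_local {R : Type*} [CommRing R] [IsLocalRing R] (v : Fin 3 → R) (hv : Um v) :
    EEq v (e0 R) := by
  obtain ⟨i, hi⟩ : ∃ i, IsUnit (v i) := by
    by_contra hcon
    push Not at hcon
    obtain ⟨w, hw⟩ := hv
    have h1 : (1 : R) ∈ IsLocalRing.maximalIdeal R := by
      rw [← hw, dotProduct]
      exact Ideal.sum_mem _ fun i _ => Ideal.mul_mem_right _ _
        ((IsLocalRing.mem_maximalIdeal _).2 (hcon i))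
    exact (Ideal.ne_top_iff_one _).1 (IsLocalRing.maximalIdeal.isMaximal R).ne_top h1
  obtain ⟨l, hl⟩ : ∃ l : Fin 3, i ≠ l := ⟨i + 1, by fin_cases i <;> decide⟩
  rw [RW_e0]
  exact (EEq_single_of_isUnit 0 i l hl v hi).symm

/-- a monic polynomial over a quotient lifts to a monic polynomial. -/
theorem RW_lift_monic {R S : Type*} [CommRing R] [CommRing S] (f : R →+* S)
    (hf : Function.Surjective f) (p : S[X]) (hp : p.Monic) : ∃ q : R[X], q.Monic ∧ q.map f = p := by
  have h1 : p ∈ Polynomial.lifts f := by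
    rw [Polynomial.lifts_iff_coeff_lifts]
    intro n
    exact hf _
  rcases subsingleton_or_nontrivial S with hS | hS
  · exact ⟨1, monic_one, Subsingleton.elim _ _⟩
  obtain ⟨q, hq1, -, hq2⟩ := Polynomial.lifts_and_degree_eq_and_monic h1 hp
  exact ⟨q, hq2, hq1⟩

theorem RW : RW_stmt.{u} := by
  intro hCS hKW hFN hSX hLF hNF hHZ n hn R _ hR v hv
  obtain ⟨k, rfl⟩ : ∃ k, n = 3 + k := ⟨n - 3, by omega⟩
  have hRn := hR.noeth
  have hRl := hR.loc
  have hk2 : 3 + k - 1 = k + 2 := by omega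
  have hdim : ringKrullDim R ≤ ((k + 2 : ℕ) : WithBot ℕ∞) := by
    have := hR.dim
    rwa [hk2] at this
  have hfact : IsUnit (((k + 2).factorial : ℕ) : R) := by
    have := hR.fact
    rwa [hk2] at this
  obtain ⟨w, c, hc, hdim', hE⟩ := hCS R k hdim v hv
  set I : Ideal R := Ideal.span (Set.range c) with hIdef
  have hI : I ≤ IsLocalRing.maximalIdeal R := by
    rw [hIdef, Ideal.span_le]
    rintro _ ⟨i, rfl⟩
    exact hc i
  have hItop : I ≠ ⊤ := fun h => (IsLocalRing.maximalIdeal.isMaximal R).ne_top (top_le_iff.1 (h ▸ hI))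
  have hnt : Nontrivial (R ⧸ I) := Ideal.Quotient.nontrivial_iff.2 hItop
  have hloc : IsLocalRing (R ⧸ I) :=
    IsLocalRing.of_surjective' (Ideal.Quotient.mk I) Ideal.Quotient.mk_surjective
  let π : R[X] →+* (R ⧸ I)[X] := Polynomial.mapRingHom (Ideal.Quotient.mk I)
  have hπC : ∀ i, π (C (c i)) = 0 := by
    intro i
    show (C (c i)).map (Ideal.Quotient.mk I) = 0
    have h0 : Ideal.Quotient.mk I (c i) = 0 :=
      Ideal.Quotient.eq_zero_iff_mem.2 (Ideal.subset_span (Set.mem_range_self i))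
    rw [Polynomial.map_C, h0, C_0]
  have hUm1 : Um (Fin.append w (fun i => C (c i))) := hE.um hv
  have hUmw : Um (fun i => π (w i)) := by
    obtain ⟨y, hy⟩ := hUm1.map π
    refine ⟨fun i => y (Fin.castAdd k i), ?_⟩
    rw [dotProduct, Fin.sum_univ_add] at hy
    simp only [Fin.append_left, Fin.append_right, hπC, zero_mul, Finset.sum_const_zero,
      add_zero] at hy
    exact hy
  -- normalise the value at zero
  have hUm0 : Um (fun i => (π (w i)).eval 0) := hUmw.map (Polynomial.evalRingHom 0)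
  obtain ⟨M0, hM0, hM0e⟩ := RW_local _ hUm0
  set w1 : Fin 3 → (R ⧸ I)[X] := (fun i => π (w i)) ᵥ* (M0.map (C : (R ⧸ I) →+* (R ⧸ I)[X]))
    with hw1
  have hEw1 : EEq (fun i => π (w i)) w1 := ⟨_, E_map C hM0, rfl⟩
  have hw10 : ∀ i, (w1 i).eval 0 = e0 (R ⧸ I) i := by
    intro i
    have h1 := congrFun (ELEM_vecMul_map (Polynomial.evalRingHom 0) (fun i => π (w i))
      (M0.map (C : (R ⧸ I) →+* (R ⧸ I)[X]))) i
    have h2 : (M0.map (C : (R ⧸ I) →+* (R ⧸ I)[X])).map (Polynomial.evalRingHom (0 : R ⧸ I)) = M0 := by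
      ext a b
      simp
    rw [h2] at h1
    have h3 := congrFun hM0e i
    rw [h3]
    exact h1
  -- the exponent
  obtain ⟨M, hM⟩ : ∃ M, (k + 2).factorial = 2 * M :=
    (Nat.dvd_factorial (by norm_num) (by omega) : 2 ∣ (k + 2).factorial)
  have hM1 : 1 ≤ M := by
    have := Nat.factorial_pos (k + 2)
    omega
  have hunit : IsUnit (((4 * M : ℕ)) : R ⧸ I) := by
    have h1 : IsUnit (((2 * M : ℕ)) : R ⧸ I) := by
      have := hfact.map (Ideal.Quotient.mk I)
      rw [hM, map_natCast] at this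
      exact this
    have h2 : IsUnit (2 : R ⧸ I) := by
      refine isUnit_of_mul_isUnit_left (y := (M : R ⧸ I)) ?_
      push_cast at h1
      exact h1
    have h3 : ((4 * M : ℕ) : R ⧸ I) = 2 * ((2 * M : ℕ) : R ⧸ I) := by
      push_cast
      ring
    rw [h3]
    exact h2.mul h1
  obtain ⟨w', r, ε, s, h1, hε, hs, hψ, hfin⟩ := hKW (R ⧸ I) (4 * M) hunit w1 (hEw1.um hUmw) hw10
  -- the ring `R'(X)`
  let φ : (R ⧸ I)[X] →+* RX (R ⧸ I) := algebraMap _ _
  have hSR : ∀ j, 3 ≤ j → SR (RX (R ⧸ I)) j := fun j hj => hSX (R ⧸ I) 2 hdim' j (by omega)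
  have hmapdot : (fun i => φ (w1 i)) ⬝ᵥ (fun i => φ (w' i)) = 1 := by
    have := congrArg φ h1
    rw [map_one, dotProduct, map_sum] at this
    simpa [dotProduct, map_mul] using this
  have hVe : (V (e0 (R ⧸ I)[X]) (e0 (R ⧸ I)[X])).map φ =
      V (e0 (RX (R ⧸ I))) (e0 (RX (R ⧸ I))) := by
    rw [RW_V_map, RW_e0_map]
  have hψ' := congrArg (fun N => N.map φ) hψ
  have hfin' := congrArg (fun N => N.map φ) hfin
  simp only [Matrix.map_mul, RW_map_pow, RW_dsum_map, RW_Hyp_map, hVe, RW_V_map,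
    Matrix.transpose_map] at hψ' hfin'
  obtain ⟨a, b, d, hum, hEE⟩ := hFN (RX (R ⧸ I)) hSR M hM1 (fun i => φ (w1 i)) (fun i => φ (w' i))
    hmapdot r (ε.map φ) (s.map φ) (E_map φ hε) (by rw [RW_det_map, hs, map_one])
    (by simpa only [Matrix.transpose_map] using hψ') (by simpa only [Matrix.transpose_map] using hfin')
  -- the quotient of `R(X)`
  let α : R[X] →+* RX R := algebraMap _ _
  let cA : Fin k → RX R := fun i => α (C (c i))
  let J : Ideal (RX R) := Ideal.span (Set.range cA)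
  let base : R →+* RX R ⧸ J := (Ideal.Quotient.mk J).comp (α.comp C)
  have hbase : ∀ x ∈ I, base x = 0 := by
    intro x hx
    have h2 : I ≤ RingHom.ker base := by
      rw [hIdef, Ideal.span_le]
      rintro _ ⟨i, rfl⟩
      show base (c i) = 0
      exact Ideal.Quotient.eq_zero_iff_mem.2 (Ideal.subset_span (Set.mem_range_self i))
    exact h2 hx
  let g : (R ⧸ I)[X] →+* RX R ⧸ J :=
    Polynomial.eval₂RingHom (Ideal.Quotient.lift I base hbase) (Ideal.Quotient.mk J (α X))
  have hg : ∀ f : R[X], g (π f) = Ideal.Quotient.mk J (α f) := by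
    intro f
    have h2 : g.comp π = (Ideal.Quotient.mk J).comp α := by
      refine Polynomial.ringHom_ext ?_ ?_
      · intro x
        show g ((C x).map (Ideal.Quotient.mk I)) = _
        rw [Polynomial.map_C]
        show Polynomial.eval₂ _ _ _ = _
        rw [Polynomial.eval₂_C]
        rfl
      · show g ((X : R[X]).map (Ideal.Quotient.mk I)) = _
        rw [Polynomial.map_X]
        show Polynomial.eval₂ _ _ _ = _
        rw [Polynomial.eval₂_X]
        rfl
    exact congrArg (fun F : R[X] →+* RX R ⧸ J => F f) h2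
  have hunits : ∀ y : monicSub (R ⧸ I), IsUnit (g y.1) := by
    rintro ⟨y, hy⟩
    obtain ⟨q, hq1, hq2⟩ := RW_lift_monic (Ideal.Quotient.mk I) Ideal.Quotient.mk_surjective y hy
    have h2 : g y = Ideal.Quotient.mk J (α q) := by
      rw [← hg q, ← hq2]
      rfl
    show IsUnit (g y)
    rw [h2]
    exact (IsLocalization.map_units (RX R) (⟨q, hq1⟩ : monicSub R)).map _
  let ψ : RX (R ⧸ I) →+* RX R ⧸ J := IsLocalization.lift hunits
  have hψφ : ∀ f, ψ (φ f) = g f := fun f => IsLocalization.lift_eq hunits f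
  obtain ⟨a1, ha1⟩ := Ideal.Quotient.mk_surjective (ψ a)
  obtain ⟨b1, hb1⟩ := Ideal.Quotient.mk_surjective (ψ b)
  obtain ⟨d1, hd1⟩ := Ideal.Quotient.mk_surjective (ψ d)
  have hEEq : EEq (fun i => Ideal.Quotient.mk J (α (w i)))
      (fun i => Ideal.Quotient.mk J ((![a1 ^ (2 * M), b1, d1] : Fin 3 → RX R) i)) := by
    have h2 := EEq.map (A := RX (R ⧸ I)) (B := RX R ⧸ J) ((hEw1.map φ).trans hEE) ψ
    have h3 : (fun i => ψ (φ (π (w i)))) = fun i => Ideal.Quotient.mk J (α (w i)) := by
      funext i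
      rw [hψφ, hg]
    have h4 : (fun i => ψ ((![a ^ (2 * M), b, d] : Fin 3 → RX (R ⧸ I)) i)) =
        fun i => Ideal.Quotient.mk J ((![a1 ^ (2 * M), b1, d1] : Fin 3 → RX R) i) := by
      funext i
      fin_cases i
      · show ψ (a ^ (2 * M)) = Ideal.Quotient.mk J (a1 ^ (2 * M))
        rw [map_pow, map_pow, ha1]
      · show ψ b = Ideal.Quotient.mk J b1
        rw [hb1]
      · show ψ d = Ideal.Quotient.mk J d1
        rw [hd1]
    rw [h3, h4] at h2
    exact h2
  have hL := hLF (RX R) k cA (fun i => α (w i)) ![a1 ^ (2 * M), b1, d1] hEEq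
  -- the row over `R(X)`
  have happ : (fun i => α (Fin.append w (fun i => C (c i)) i)) = Fin.append (fun i => α (w i)) cA := by
    funext i
    refine Fin.addCases (fun i => ?_) (fun i => ?_) i
    · simp only [Fin.append_left]
    · simp only [Fin.append_right]
      rfl
  have hEα : EEq (fun i => α (v i)) (Fin.append (fun i => α (w i)) cA) := by
    have := hE.map α
    rwa [happ] at this
  have hEtot := hEα.trans hL
  have hUmα : Um (fun i => α (v i)) := hv.map α
  have hUmfin := hEtot.um hUmα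
  rw [← hM] at hUmfin hEtot
  have hCompfin := hNF (RX R) k a1 b1 d1 cA hUmfin
  have hComp : Comp (fun i => α (v i)) := hEtot.symm.comp hCompfin
  exact hHZ R (Fin (3 + k)) (by rw [Fintype.card_fin]; omega) v hv hComp

end GB
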